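import Pool.Agent.helper48.TH.Spec

/-!
# Project TH, row SUA: the expected number of bad sites for an adaptive set
-/

set_option autoImplicit false

namespace TP.TW

open DP MeasureTheory Finset

lemma SUA_box (D : Finset V) (τ : ℤ × ℤ) (R : ℕ) (w : V) :
    #(D.filter fun v => sd (v.1 + τ.1, v.2 + τ.2) w ≤ R) ≤ (2 * R + 1) ^ 2 := by
  have h : #(D.filter fun v => sd (v.1 + τ.1, v.2 + τ.2) w ≤ R) ≤
      #(Icc (w.1 - R) (w.1 + R) ×ˢ Icc (w.2 - R) (w.2 + R)) := by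
    refine card_le_card_of_injOn (fun v => (v.1 + τ.1, v.2 + τ.2)) ?_ ?_
    · intro v hv
      have h1 := (mem_filter.mp (mem_coe.mp hv)).2
      unfold sd at h1
      rw [max_le_iff] at h1
      obtain ⟨h2, h3⟩ := h1
      simp only at h2 h3
      rw [mem_coe, mem_product, mem_Icc, mem_Icc]
      refine ⟨⟨?_, ?_⟩, ?_, ?_⟩ <;> simp only <;> omega
    · intro v _ v' _ he
      simp only [Prod.mk.injEq] at he
      obtain ⟨h2, h3⟩ := he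
      refine Prod.ext ?_ ?_ <;> omega
  refine h.trans (le_of_eq ?_)
  rw [card_product, Int.card_Icc, Int.card_Icc]
  have e1 : (w.1 + (R : ℤ) + 1 - (w.1 - R)).toNat = 2 * R + 1 := by omega
  have e2 : (w.2 + (R : ℤ) + 1 - (w.2 - R)).toNat = 2 * R + 1 := by omega
  rw [e1, e2]
  ring

lemma SUA_dc (D S : Finset V) (τ : ℤ × ℤ) (R : ℕ) (g : V → ℝ) (hg : ∀ v, 0 ≤ g v) :
    ∑ v₀ ∈ D, ∑ w ∈ S.filter (fun w => sd (v₀.1 + τ.1, v₀.2 + τ.2) w ≤ R), g w ≤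
      (2 * (R : ℝ) + 1) ^ 2 * ∑ w ∈ S, g w := by
  simp_rw [sum_filter]
  rw [sum_comm, mul_sum]
  refine sum_le_sum fun w _ => ?_
  rw [← sum_filter, sum_const, nsmul_eq_mul]
  refine mul_le_mul_of_nonneg_right ?_ (hg w)
  have h := SUA_box D τ R w
  have h' : ((#(D.filter fun v => sd (v.1 + τ.1, v.2 + τ.2) w ≤ R) : ℕ) : ℝ)
      ≤ (((2 * R + 1) ^ 2 : ℕ) : ℝ) := by exact_mod_cast h
  push_cast at h'
  exact h'

lemma SUA_log (n : ℕ) (hn : 2 ≤ n) : (1 : ℝ) ≤ 2 * Real.log n ∧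
    ((Nat.log 2 n + 1 : ℕ) : ℝ) ≤ 4 * Real.log n ∧
    ∀ s ∈ range (Nat.log 2 n + 1), Real.log (((2 ^ s : ℕ) : ℝ) + 2) ≤ 2 * Real.log n := by
  have hl2 : (1 : ℝ) / 2 < Real.log 2 := by
    have := Real.log_two_gt_d9
    linarith
  have hn' : (2 : ℝ) ≤ n := by exact_mod_cast hn
  have h1 : Real.log 2 ≤ Real.log n := Real.log_le_log (by norm_num) hn'
  have h2 : (Nat.log 2 n : ℝ) * Real.log 2 ≤ Real.log n := by
    rw [← Real.log_pow]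
    refine Real.log_le_log (by positivity) ?_
    exact_mod_cast Nat.pow_log_le_self 2 (by omega)
  have h3 : (0 : ℝ) ≤ (Nat.log 2 n : ℝ) := Nat.cast_nonneg _
  refine ⟨by linarith, ?_, ?_⟩
  · push_cast
    nlinarith
  · intro s hs
    have hs' : s ≤ Nat.log 2 n := by
      have := mem_range.mp hs
      omega
    have h4 : 2 ^ s ≤ n := (Nat.pow_le_pow_right (by norm_num) hs').trans (Nat.pow_log_le_self 2 (by omega))
    have h5 : ((2 ^ s : ℕ) : ℝ) ≤ n := by exact_mod_cast h4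
    have h6 : ((2 ^ s : ℕ) : ℝ) + 2 ≤ (n : ℝ) ^ 2 := by nlinarith
    have h7 : Real.log (((2 ^ s : ℕ) : ℝ) + 2) ≤ Real.log ((n : ℝ) ^ 2) :=
      Real.log_le_log (by positivity) h6
    rw [Real.log_pow] at h7
    exact_mod_cast h7

lemma SUA_prob : IsProbabilityMeasure DP.P1 := by
  unfold DP.P1
  infer_instance

theorem SUA (cv : CV_stmt) (spa : SPA_stmt) : SUA_stmt := by
  have hprob := SUA_prob
  obtain ⟨C₀, hC₀, hSPA⟩ := spa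
  refine ⟨4 * 401 ^ 2 + 16 * 801 ^ 2 * 81 * C₀, by positivity, ?_⟩
  intro n A Ω B hn hA hΩ hTwo
  obtain ⟨hTA, hTΩ, hTB, _⟩ := id hTwo
  set D : Finset V := (univ : Finset (Fin n × Fin n)).image phi with hD
  set P : V → ℝ := fun v => Pr {β | v ∈ B β} with hP
  have hP0 : ∀ v, 0 ≤ P v := by
    intro v
    simp only [hP]
    unfold DP.Pr
    exact measureReal_nonneg
  set I : Finset (ℕ × Bool × ℤ × ℤ) := range (Nat.log 2 n + 1) ×ˢ (univ : Finset Bool) ×ˢ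
    Icc (-400 : ℤ) 400 ×ˢ Icc (-400 : ℤ) 400 with hI
  have hIc : (#I : ℝ) = ((Nat.log 2 n + 1 : ℕ) : ℝ) * (2 * 801 ^ 2) := by
    have e0 : ((400 : ℤ) + 1 - (-400)).toNat = 801 := by decide
    rw [hI, card_product, card_product, card_product, card_range, Int.card_Icc, e0, card_univ,
      Fintype.card_bool]
    push_cast
    ring
  obtain ⟨hlog1, hlog2, hlog3⟩ := SUA_log n hn
  have hln : 0 ≤ Real.log n := by linarith
  have h1 : ∀ v₀ ∈ D, Pr {β | BAD (col β) (A ∪ B β) v₀} ≤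
      ((∑ w ∈ A.filter (fun w => sd v₀ w ≤ 200), (1 : ℝ)) + ∑ v ∈ Ω.filter (fun v => sd v₀ v ≤ 200), P v) +
      ∑ i ∈ I, C₀ * wgt (A.filter fun v => sd (v₀.1 + 2 ^ i.1 * i.2.2.1, v₀.2 + 2 ^ i.1 * i.2.2.2) v ≤ 4 * 2 ^ i.1)
        (Ω.filter fun v => sd (v₀.1 + 2 ^ i.1 * i.2.2.1, v₀.2 + 2 ^ i.1 * i.2.2.2) v ≤ 4 * 2 ^ i.1) B (2 ^ i.1)
          / (((2 ^ i.1 : ℕ) : ℝ)) ^ 2 := by
    intro v₀ hv₀
    have hsub : {β | BAD (col β) (A ∪ B β) v₀} ⊆ ((⋃ w ∈ A.filter (fun w => sd v₀ w ≤ 200), (Set.univ : Set (V → Bool))) ∪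
        ⋃ v ∈ Ω.filter (fun v => sd v₀ v ≤ 200), {β | v ∈ B β}) ∪
        ⋃ i ∈ I, {β | SR (col β) i.2.1 (A ∪ B β)
          (v₀.1 + 2 ^ i.1 * i.2.2.1, v₀.2 + 2 ^ i.1 * i.2.2.2) (2 ^ i.1)} := by
      intro β hβ
      have hβ' : BAD (col β) (A ∪ B β) v₀ := hβ
      rcases cv n (col β) (A ∪ B β) v₀ hn (union_subset hA ((hTB β).trans hΩ)) hv₀ hβ' with
        ⟨w, hw, hw2⟩ | ⟨s, hs, k, p, hp, q, hq, hSR⟩
      · left
        rcases mem_union.mp hw with hw | hw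
        · left
          rw [Set.mem_iUnion₂]
          exact ⟨w, mem_filter.mpr ⟨hw, hw2⟩, Set.mem_univ _⟩
        · right
          rw [Set.mem_iUnion₂]
          exact ⟨w, mem_filter.mpr ⟨hTB β hw, hw2⟩, hw⟩
      · right
        rw [Set.mem_iUnion₂]
        refine ⟨(s, k, p, q), ?_, hSR⟩
        rw [hI, mem_product, mem_product, mem_product]
        exact ⟨hs, mem_univ _, hp, hq⟩
    have h6 : Pr {β | BAD (col β) (A ∪ B β) v₀} ≤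
        (Pr (⋃ w ∈ A.filter (fun w => sd v₀ w ≤ 200), (Set.univ : Set (V → Bool))) +
        Pr (⋃ v ∈ Ω.filter (fun v => sd v₀ v ≤ 200), {β | v ∈ B β})) +
        Pr (⋃ i ∈ I, {β | SR (col β) i.2.1 (A ∪ B β)
          (v₀.1 + 2 ^ i.1 * i.2.2.1, v₀.2 + 2 ^ i.1 * i.2.2.2) (2 ^ i.1)}) := by
      unfold DP.Pr
      refine (measureReal_mono hsub (measure_ne_top _ _)).trans ?_
      refine (measureReal_union_le _ _).trans ?_
      exact add_le_add (measureReal_union_le _ _) le_rfl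
    refine h6.trans (add_le_add (add_le_add ?_ ?_) ?_)
    · unfold DP.Pr
      refine (measureReal_biUnion_finset_le _ _).trans (sum_le_sum fun w _ => ?_)
      exact measureReal_le_one
    · simp only [hP]
      unfold DP.Pr
      exact measureReal_biUnion_finset_le _ _
    · have h7 : Pr (⋃ i ∈ I, {β | SR (col β) i.2.1 (A ∪ B β)
          (v₀.1 + 2 ^ i.1 * i.2.2.1, v₀.2 + 2 ^ i.1 * i.2.2.2) (2 ^ i.1)}) ≤
          ∑ i ∈ I, Pr {β | SR (col β) i.2.1 (A ∪ B β)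
          (v₀.1 + 2 ^ i.1 * i.2.2.1, v₀.2 + 2 ^ i.1 * i.2.2.2) (2 ^ i.1)} := by
        unfold DP.Pr
        exact measureReal_biUnion_finset_le _ _
      exact h7.trans (sum_le_sum fun i _ => hSPA i.2.1 A Ω B _ (2 ^ i.1) Nat.one_le_two_pow hTwo)
  have h9 : ∑ v₀ ∈ D, ((∑ w ∈ A.filter (fun w => sd v₀ w ≤ 200), (1 : ℝ)) +
      ∑ v ∈ Ω.filter (fun v => sd v₀ v ≤ 200), P v) ≤ 401 ^ 2 * (#A + ∑ v ∈ Ω, P v) := by
    rw [sum_add_distrib]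
    have h10 := SUA_dc D A (0, 0) 200 (fun _ => 1) (fun _ => zero_le_one)
    have h11 := SUA_dc D Ω (0, 0) 200 P hP0
    simp only [add_zero, sum_const, nsmul_eq_mul, mul_one] at h10 h11 ⊢
    push_cast at h10 h11
    norm_num at h10 h11 ⊢
    linarith
  have h12 : ∀ i ∈ I, ∑ v₀ ∈ D, C₀ * wgt (A.filter fun v => sd (v₀.1 + 2 ^ i.1 * i.2.2.1, v₀.2 + 2 ^ i.1 * i.2.2.2) v ≤ 4 * 2 ^ i.1)
        (Ω.filter fun v => sd (v₀.1 + 2 ^ i.1 * i.2.2.1, v₀.2 + 2 ^ i.1 * i.2.2.2) v ≤ 4 * 2 ^ i.1) B (2 ^ i.1)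
          / (((2 ^ i.1 : ℕ) : ℝ)) ^ 2
      ≤ 81 * C₀ * (2 * (#A * Real.log n) + ∑ v ∈ Ω, P v) := by
    intro i hi
    have his : i.1 ∈ range (Nat.log 2 n + 1) := by
      rw [hI, mem_product] at hi
      exact hi.1
    have hlt := hlog3 i.1 his
    have hlt0 : 0 ≤ Real.log (((2 ^ i.1 : ℕ) : ℝ) + 2) := by
      refine Real.log_nonneg ?_
      have : (0 : ℝ) ≤ ((2 ^ i.1 : ℕ) : ℝ) := Nat.cast_nonneg _
      linarith
    have h10 := SUA_dc D A (2 ^ i.1 * i.2.2.1, 2 ^ i.1 * i.2.2.2) (4 * 2 ^ i.1) (fun _ => 1)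
      (fun _ => zero_le_one)
    have h11 := SUA_dc D Ω (2 ^ i.1 * i.2.2.1, 2 ^ i.1 * i.2.2.2) (4 * 2 ^ i.1) P hP0
    simp only [sum_const, nsmul_eq_mul, mul_one] at h10 h11
    have ht1 : (1 : ℝ) ≤ ((2 ^ i.1 : ℕ) : ℝ) := by exact_mod_cast Nat.one_le_two_pow
    have h14 : (2 * ((4 * 2 ^ i.1 : ℕ) : ℝ) + 1) ^ 2 ≤ 81 * (((2 ^ i.1 : ℕ) : ℝ)) ^ 2 := by
      have e : ((4 * 2 ^ i.1 : ℕ) : ℝ) = 4 * ((2 ^ i.1 : ℕ) : ℝ) := by push_cast; ring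
      rw [e]
      nlinarith
    have hpos : (0 : ℝ) < (((2 ^ i.1 : ℕ) : ℝ)) ^ 2 := by positivity
    have hS : ∑ v₀ ∈ D, wgt (A.filter fun v => sd (v₀.1 + 2 ^ i.1 * i.2.2.1, v₀.2 + 2 ^ i.1 * i.2.2.2) v ≤ 4 * 2 ^ i.1)
        (Ω.filter fun v => sd (v₀.1 + 2 ^ i.1 * i.2.2.1, v₀.2 + 2 ^ i.1 * i.2.2.2) v ≤ 4 * 2 ^ i.1) B (2 ^ i.1) ≤
        81 * (((2 ^ i.1 : ℕ) : ℝ)) ^ 2 * (2 * (#A * Real.log n) + ∑ v ∈ Ω, P v) := by
      simp only [wgt]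
      rw [sum_add_distrib, ← sum_mul]
      have hA0 : (0 : ℝ) ≤ #A := Nat.cast_nonneg _
      have hs0 : 0 ≤ ∑ v ∈ Ω, P v := sum_nonneg fun v _ => hP0 v
      have hQ : (0 : ℝ) ≤ 81 * (((2 ^ i.1 : ℕ) : ℝ)) ^ 2 := by positivity
      have a1 : (∑ v₀ ∈ D, (#(A.filter fun v => sd (v₀.1 + 2 ^ i.1 * i.2.2.1, v₀.2 + 2 ^ i.1 * i.2.2.2) v ≤ 4 * 2 ^ i.1) : ℝ)) *
          Real.log (((2 ^ i.1 : ℕ) : ℝ) + 2) ≤ (81 * (((2 ^ i.1 : ℕ) : ℝ)) ^ 2 * #A) * (2 * Real.log n) := by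
        refine mul_le_mul ?_ hlt hlt0 (by positivity)
        exact h10.trans (mul_le_mul_of_nonneg_right h14 hA0)
      have a2 : ∑ v₀ ∈ D, ∑ v ∈ Ω.filter (fun v => sd (v₀.1 + 2 ^ i.1 * i.2.2.1, v₀.2 + 2 ^ i.1 * i.2.2.2) v ≤ 4 * 2 ^ i.1),
          Pr {β | v ∈ B β} ≤ (81 * (((2 ^ i.1 : ℕ) : ℝ)) ^ 2) * ∑ v ∈ Ω, P v :=
        h11.trans (mul_le_mul_of_nonneg_right h14 hs0)
      have a3 : (81 * (((2 ^ i.1 : ℕ) : ℝ)) ^ 2 * #A) * (2 * Real.log n) + (81 * (((2 ^ i.1 : ℕ) : ℝ)) ^ 2) * ∑ v ∈ Ω, P v =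
          81 * (((2 ^ i.1 : ℕ) : ℝ)) ^ 2 * (2 * (#A * Real.log n) + ∑ v ∈ Ω, P v) := by ring
      rw [← a3]
      exact add_le_add a1 a2
    rw [← sum_div, ← mul_sum, div_le_iff₀ hpos]
    refine (mul_le_mul_of_nonneg_left hS hC₀.le).trans (le_of_eq ?_)
    ring
  have h18 : ∑ v₀ ∈ D, Pr {β | BAD (col β) (A ∪ B β) v₀} ≤ 401 ^ 2 * (#A + ∑ v ∈ Ω, P v) +
      #I * (81 * C₀ * (2 * (#A * Real.log n) + ∑ v ∈ Ω, P v)) := by
    refine (sum_le_sum h1).trans ?_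
    rw [sum_add_distrib]
    refine add_le_add h9 ?_
    rw [sum_comm]
    have h19 := sum_le_card_nsmul I _ _ h12
    rwa [nsmul_eq_mul] at h19
  refine h18.trans ?_
  rw [hIc]
  have hA0 : (0 : ℝ) ≤ #A := Nat.cast_nonneg _
  have hs0 : 0 ≤ ∑ v ∈ Ω, P v := sum_nonneg fun v _ => hP0 v
  set a : ℝ := (#A : ℝ) with ha
  set p : ℝ := ∑ v ∈ Ω, P v with hp
  set l : ℝ := Real.log n with hl
  have b1 : a ≤ 4 * l * (a * l) := by
    have : 1 ≤ (2 * l) * (2 * l) := by nlinarith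
    nlinarith
  have b2 : p ≤ 4 * l * p := by nlinarith
  have b3 : 401 ^ 2 * (a + p) ≤ 4 * 401 ^ 2 * l * (a * l + p) := by nlinarith
  have b4 : ((Nat.log 2 n + 1 : ℕ) : ℝ) * (2 * 801 ^ 2) * (81 * C₀ * (2 * (a * l) + p)) ≤
      (4 * l) * ((2 * 801 ^ 2) * (81 * C₀ * (2 * (a * l + p)))) := by
    have c1 : 2 * (a * l) + p ≤ 2 * (a * l + p) := by linarith
    have c2 : 0 ≤ 2 * (a * l) + p := by positivity
    rw [mul_assoc]
    refine mul_le_mul hlog2 ?_ (by positivity) (by linarith)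
    refine mul_le_mul_of_nonneg_left ?_ (by positivity)
    exact mul_le_mul_of_nonneg_left c1 (by positivity)
  calc 401 ^ 2 * (a + p) + ((Nat.log 2 n + 1 : ℕ) : ℝ) * (2 * 801 ^ 2) * (81 * C₀ * (2 * (a * l) + p))
      ≤ 4 * 401 ^ 2 * l * (a * l + p) + (4 * l) * ((2 * 801 ^ 2) * (81 * C₀ * (2 * (a * l + p)))) :=
        add_le_add b3 b4
    _ = (4 * 401 ^ 2 + 16 * 801 ^ 2 * 81 * C₀) * l * (a * l + p) := by ring

end TP.TW
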