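import Pool.Agent.helper9.TH.Spec

/-!
# Row T5t of project TH (MP_fd6eef)
-/

set_option autoImplicit false

namespace Pool.Agent.helper65.TH

open Pool.Agent.helper9.TH

universe u

/-- an element of coprime exponents is zero -/
theorem T5t_cop {V : Type u} [AddCommGroup V] {k p : ℕ} (h : k.Coprime p) {w : V}
    (h1 : k • w = 0) (h2 : p • w = 0) : w = 0 := by
  have h3 := addOrderOf_dvd_of_nsmul_eq_zero h1
  have h4 := addOrderOf_dvd_of_nsmul_eq_zero h2
  have h5 := Nat.dvd_gcd h3 h4
  rw [Nat.Coprime.gcd_eq_one h] at h5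
  exact AddMonoid.addOrderOf_eq_one_iff.1 (Nat.dvd_one.1 h5)

/-- an endomorphism killed by a number prime to `p` is zero -/
theorem T5t_cop2 {V : Type u} [AddCommGroup V] {k p : ℕ} (h : k.Coprime p)
    (hV : ∀ v : V, p • v = 0) (e : AddMonoid.End V) (h1 : (k : AddMonoid.End V) * e = 0) : e = 0 := by
  ext v
  refine T5t_cop h ?_ (hV (e v))
  have := DFunLike.congr_fun h1 v
  simpa using this

/-- `n ^ p = 0` -/
theorem T5t_nil {V : Type u} [AddCommGroup V] [Nontrivial V] {p : ℕ} (hp : p.Prime)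
    (hV : ∀ v : V, p • v = 0) (b : AddMonoid.End V) (hb : b ^ p = 1) : (b - 1) ^ p = 0 := by
  have h0 : ((p : ℕ) : AddMonoid.End V) = 0 := by
    ext v
    simpa using hV v
  have hfp : Fact p.Prime := ⟨hp⟩
  have hnt : Nontrivial (AddMonoid.End V) := by
    obtain ⟨v, hv⟩ := exists_ne (0 : V)
    refine ⟨⟨1, 0, fun h => hv ?_⟩⟩
    exact DFunLike.congr_fun h v
  have hch : CharP (AddMonoid.End V) p := (CharP.charP_iff_prime_eq_zero hp).2 h0
  rw [sub_pow_char_of_commute p (Commute.one_right b), hb, one_pow, sub_self]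

/-- `n * n = 0` -/
theorem T5t_sq {V : Type u} [AddCommGroup V] [Finite V] {p : ℕ} (hp : p.Prime)
    (hV : ∀ v : V, p • v = 0) (n : AddMonoid.End V) (hn : n ^ p = 0)
    (hc : Nat.card V ≤ p * Nat.card {v : V // n v = 0}) : n * n = 0 := by
  classical
  let f : V →+ V := n
  have hker : Nat.card {v : V // n v = 0} = Nat.card f.ker :=
    Nat.card_congr (Equiv.subtypeEquivRight fun v => by
      rw [AddMonoidHom.mem_ker]
      exact Iff.rfl)
  have hcard : Nat.card V = Nat.card f.range * Nat.card f.ker := by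
    have h1 := AddSubgroup.card_mul_index f.ker
    rw [AddSubgroup.index_ker f] at h1
    rw [← h1, mul_comm]
  have hkpos : 0 < Nat.card f.ker := Nat.card_pos
  have hrange : Nat.card f.range ≤ p := by
    rw [hker, hcard] at hc
    exact Nat.le_of_mul_le_mul_right hc hkpos
  ext v
  by_contra hne
  have hr0 : n (n v) ≠ 0 := hne
  set r : V := n v with hr
  have hr1 : r ≠ 0 := by
    intro h
    rw [h, map_zero] at hr0
    exact hr0 rfl
  have hord : addOrderOf r = p := addOrderOf_eq_prime (hV r) hr1 (hp := ⟨hp⟩)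
  have hz : AddSubgroup.zmultiples r = f.range := by
    apply AddSubgroup.eq_of_le_of_card_ge
    · rw [AddSubgroup.zmultiples_le]
      exact ⟨v, rfl⟩
    · rw [Nat.card_zmultiples, hord]
      exact hrange
  have hmem : n r ∈ AddSubgroup.zmultiples r := by
    rw [hz]
    exact ⟨r, rfl⟩
  obtain ⟨k, hk⟩ := AddSubgroup.mem_zmultiples_iff.1 hmem
  have hpow : ∀ j : ℕ, (n ^ j) r = (k ^ j) • r := by
    intro j
    induction j with
    | zero => simp
    | succ j ih =>
      rw [pow_succ, pow_succ]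
      change (n ^ j) (n r) = _
      rw [← hk, map_zsmul, ih, smul_smul, mul_comm]
  have h2 := hpow p
  rw [hn] at h2
  have h3 : (k ^ p) • r = 0 := h2.symm
  have h4 : ((addOrderOf r : ℕ) : ℤ) ∣ k ^ p := (addOrderOf_dvd_iff_zsmul_eq_zero).2 h3
  rw [hord] at h4
  have h5 : (p : ℤ) ∣ k := (Nat.prime_iff_prime_int.1 hp).dvd_of_dvd_pow h4
  obtain ⟨c, hc'⟩ := h5
  apply hr0
  rw [← hk, hc', mul_comm, mul_smul]
  have : ((p : ℕ) : ℤ) • r = 0 := by
    rw [natCast_zsmul]
    exact hV r
  rw [this, smul_zero]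

theorem T5t : T5t_stmt.{u} := by
  intro p V _ _ hp hp2 hV Q β hβ hQ hcop hQ1 hQ2 hcard x hx
  classical
  rcases subsingleton_or_nontrivial V with hs | hnt
  · ext v
    exact Subsingleton.elim _ _
  obtain ⟨n, hn⟩ : ∃ n : AddMonoid.End V, n = (β : AddMonoid.End V) - 1 := ⟨_, rfl⟩
  have hβn : (β : AddMonoid.End V) = 1 + n := by rw [hn]; abel
  have hnp : n ^ p = 0 := by
    rw [hn]
    apply T5t_nil hp hV
    rw [← Units.val_pow_eq_pow_val, hβ, Units.val_one]
  have hnn : n * n = 0 := by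
    apply T5t_sq hp hV n hnp
    refine le_trans hcard (le_of_eq ?_)
    congr 1
    refine Nat.card_congr (Equiv.subtypeEquivRight fun v => ?_)
    rw [hn]
    change _ ↔ (β : AddMonoid.End V) v - v = 0
    rw [sub_eq_zero]
  have hinv : ((β⁻¹ : (AddMonoid.End V)ˣ) : AddMonoid.End V) = 1 - n := by
    have h1 : (β : AddMonoid.End V) * (1 - n) = 1 := by
      rw [hβn]
      have : (1 + n) * (1 - n) = 1 - n * n := by noncomm_ring
      rw [this, hnn, sub_zero]
    exact (Units.inv_eq_of_mul_eq_one_right h1)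
  obtain ⟨X, hX⟩ : ∃ X : AddMonoid.End V, X = (x : AddMonoid.End V) := ⟨_, rfl⟩
  obtain ⟨d, hd⟩ : ∃ d : AddMonoid.End V, d = n * X - X * n := ⟨_, rfl⟩
  have hA : (1 + n) * X * (1 - n) * X = X * ((1 + n) * X * (1 - n)) := by
    have h1 := congrArg (fun y : (AddMonoid.End V)ˣ => (y : AddMonoid.End V)) (hQ _ (hQ1 x hx) x hx)
    simp only [Units.val_mul] at h1
    rw [hinv, hβn, ← hX] at h1
    exact h1
  have hB : (1 - n) * X * (1 + n) * X = X * ((1 - n) * X * (1 + n)) := by
    have h1 := congrArg (fun y : (AddMonoid.End V)ˣ => (y : AddMonoid.End V)) (hQ _ (hQ2 x hx) x hx)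
    simp only [Units.val_mul] at h1
    rw [hinv, hβn, ← hX] at h1
    exact h1
  have h2c : (2 : ℕ).Coprime p := (Nat.coprime_primes Nat.prime_two hp).2 (Ne.symm hp2)
  have hdX : d * X = X * d := by
    have h1 : ((2 : ℕ) : AddMonoid.End V) * (d * X - X * d) = 0 := by
      have h2 : ((2 : ℕ) : AddMonoid.End V) * (d * X - X * d) =
          ((1 + n) * X * (1 - n) * X - X * ((1 + n) * X * (1 - n)))
          - ((1 - n) * X * (1 + n) * X - X * ((1 - n) * X * (1 + n))) := by
        rw [hd]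
        push_cast
        noncomm_ring
      rw [h2, hA, hB, sub_self, sub_self, sub_self]
    exact sub_eq_zero.1 (T5t_cop2 h2c hV _ h1)
  have hind : ∀ k : ℕ, n * X ^ (k + 1) - X ^ (k + 1) * n = ((k + 1 : ℕ) : AddMonoid.End V) * (X ^ k * d) := by
    intro k
    induction k with
    | zero => simp [hd]
    | succ k ih =>
      have hc : X ^ k * d * X = X ^ (k + 1) * d := by
        rw [mul_assoc, hdX, ← mul_assoc, ← pow_succ]
      have h1 : n * X ^ (k + 1 + 1) - X ^ (k + 1 + 1) * n =
          (n * X ^ (k + 1) - X ^ (k + 1) * n) * X + X ^ (k + 1) * (n * X - X * n) := by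
        rw [pow_succ X (k + 1)]
        noncomm_ring
      rw [h1, ih, ← hd, mul_assoc, hc]
      push_cast
      noncomm_ring
  have hord : (orderOf x).Coprime p := Nat.Coprime.coprime_dvd_left (Subgroup.orderOf_dvd_natCard Q hx) hcop
  have hfin : 0 < orderOf x := by
    rcases Nat.eq_zero_or_pos (orderOf x) with h | h
    · rw [h] at hord
      exact absurd (Nat.coprime_zero_left p |>.1 hord) hp.one_lt.ne'
    · exact h
  have hd0 : d = 0 := by
    have h1 := hind (orderOf x - 1)
    rw [Nat.sub_add_cancel hfin] at h1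
    have h2 : X ^ orderOf x = 1 := by
      rw [hX, ← Units.val_pow_eq_pow_val, pow_orderOf_eq_one, Units.val_one]
    rw [h2, mul_one, one_mul, sub_self] at h1
    have h3 := T5t_cop2 hord hV _ h1.symm
    have h4 : X ^ (orderOf x - 1) = ((x ^ (orderOf x - 1) : (AddMonoid.End V)ˣ) : AddMonoid.End V) := by
      rw [hX, Units.val_pow_eq_pow_val]
    rw [h4] at h3
    exact (Units.mul_right_eq_zero _).1 h3
  have hfinal : n * X = X * n := sub_eq_zero.1 (hd ▸ hd0)
  apply Units.ext
  rw [Units.val_mul, Units.val_mul, hβn, ← hX, add_mul, mul_add, hfinal, one_mul, mul_one]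

end Pool.Agent.helper65.TH
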