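import Pool.Agent.helper48.TH.Spec3
import Pool.Agent.helper25.TWO.FIN

/-!
# Project TH, row FNR: algorithms with any fixed number of rounds
-/

set_option autoImplicit false

namespace TP.TW

open DP MeasureTheory Finset

open Classical in
theorem FNR (fnl : FNL_stmt) (sug : SUG_stmt) (drr : DRR_stmt) (br2 : BR2_stmt) : FNR_stmt := by
  intro r
  obtain ⟨K, hK, hdrr⟩ := drr r
  obtain ⟨C, hC, hsug⟩ := sug r
  refine ⟨1 / (2 ^ (r + 1) + C * K), by positivity, ?_⟩
  intro n hn S hS0 hSm hSr hcr
  have hmono : ∀ (x : Fin n × Fin n → Bool) (i j : ℕ), i ≤ j → S i x ⊆ S j x := by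
    intro x i j hij
    induction j with
    | zero =>
      obtain rfl : i = 0 := by omega
      exact subset_rfl
    | succ j ih =>
      rcases Nat.lt_or_ge i (j + 1) with h | h
      · exact (ih (by omega)).trans (hSm j x)
      · obtain rfl : i = j + 1 := by omega
        exact subset_rfl
  have hagree : ∀ (i : ℕ) (x y : Fin n × Fin n → Bool), (∀ p ∈ S i x, x p = y p) →
      ∀ j, j ≤ i + 1 → S j y = S j x := by
    intro i x y h j hj
    cases j with
    | zero => rw [hS0, hS0]
    | succ j => exact hSr j x y (fun p hp => h p (hmono x j i (by omega) hp))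
  have h1 := fnl n (S (r + 1)) (S (r + 2)) (by omega)
    (fun x y h => ⟨hagree (r + 1) x y h (r + 1) (by omega), hagree (r + 1) x y h (r + 2) (by omega)⟩)
    (fun x y h => hcr x y (fun p hp => h p (mem_union_right _ hp)))
  have hun : ∀ x : Fin n × Fin n → Bool, S (r + 1) x ∪ S (r + 2) x = S (r + 2) x :=
    fun x => union_eq_right.mpr (hSm (r + 1) x)
  simp only [hun] at h1
  set SV : ℕ → (V → Bool) → Finset V := fun i β => (S i (fun q => β (phi q))).image phi with hSV
  set Ω : Finset V := (univ : Finset (Fin n × Fin n)).image phi with hΩ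
  have hRV : RV Ω SV := by
    refine ⟨?_, ?_, ?_⟩
    · intro v hv
      obtain ⟨p, _, rfl⟩ := mem_image.mp hv
      exact phi_br p
    · intro β
      simp only [hSV, hS0, image_empty]
    · intro i β
      refine ⟨image_subset_image (hSm i _), image_subset_image (subset_univ _), ?_⟩
      intro β' h
      have h2 : S (i + 1) (fun q => β' (phi q)) = S (i + 1) (fun q => β (phi q)) := by
        refine hSr i _ _ (fun p hp => ?_)
        exact (h (phi p) (mem_image_of_mem phi hp)).symm
      simp only [hSV, h2]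
  have hRS := hdrr Ω SV hRV
  have h3 := hsug n (SV (r + 1)) Ω _ K hn subset_rfl hRS
  set a : ℝ := (∑ x : Fin n × Fin n → Bool, (#(S (r + 2) x) : ℝ)) / 2 ^ (n * n) with ha
  have hpow : (0 : ℝ) < 2 ^ (n * n) := by positivity
  have h4 : ∑ v ∈ Ω, Pr {β | v ∈ SV (r + 1) β} ≤ a := by
    rw [hΩ, sum_image fun p _ q _ h => phi_inj h]
    have h5 : ∀ p : Fin n × Fin n, Pr {β | phi p ∈ SV (r + 1) β} =
        (∑ x : Fin n × Fin n → Bool, if p ∈ S (r + 1) x then (1 : ℝ) else 0) / 2 ^ (n * n) := by
      intro p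
      have e1 := br2 n (fun x => p ∈ S (r + 1) x)
      have e2 : {β : V → Bool | phi p ∈ SV (r + 1) β} = {β : V → Bool | p ∈ S (r + 1) (fun q => β (phi q))} := by
        ext β
        simp only [hSV, Set.mem_ofPred_eq, mem_image]
        constructor
        · rintro ⟨q, hq, hqp⟩
          exact phi_inj hqp ▸ hq
        · intro h
          exact ⟨p, h, rfl⟩
      rw [e2, e1, card_filter, Nat.cast_sum]
      refine congrArg (· / (2 : ℝ) ^ (n * n)) (sum_congr rfl fun x _ => ?_)
      by_cases h : p ∈ S (r + 1) x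
      · rw [if_pos h, if_pos h, Nat.cast_one]
      · rw [if_neg h, if_neg h, Nat.cast_zero]
    rw [sum_congr rfl fun p _ => h5 p, ← sum_div]
    have hex : (∑ p : Fin n × Fin n, ∑ x : Fin n × Fin n → Bool, if p ∈ S (r + 1) x then (1 : ℝ) else 0) =
        ∑ x : Fin n × Fin n → Bool, (#(S (r + 1) x) : ℝ) := by
      rw [sum_comm]
      refine sum_congr rfl fun x _ => ?_
      rw [← sum_filter, sum_const, nsmul_eq_mul, mul_one]
      refine congrArg (fun k : Finset (Fin n × Fin n) => (#k : ℝ)) ?_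
      ext p
      rw [mem_filter]
      exact ⟨fun h => h.2, fun h => ⟨mem_univ _, h⟩⟩
    rw [hex, ha]
    refine div_le_div_of_nonneg_right ?_ hpow.le
    refine sum_le_sum fun x _ => ?_
    exact_mod_cast card_le_card (hSm (r + 1) x)
  have hlog := TWO_log hn
  have hlog0 : (0 : ℝ) < Real.log n := by linarith
  have ha0 : 0 ≤ a := by
    rw [ha]
    exact div_nonneg (sum_nonneg fun x _ => Nat.cast_nonneg _) hpow.le
  set l : ℝ := Real.log n with hl
  have h6 : (n : ℝ) ^ 2 ≤ a + C * K * l ^ (r + 1) * a := by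
    refine h1.trans (add_le_add le_rfl (h3.trans ?_))
    exact mul_le_mul_of_nonneg_left h4 (by positivity)
  have h7 : (1 : ℝ) ≤ 2 ^ (r + 1) * l ^ (r + 1) := by
    rw [← mul_pow]
    exact one_le_pow₀ (by linarith)
  have h8 : (n : ℝ) ^ 2 ≤ (2 ^ (r + 1) + C * K) * l ^ (r + 1) * a := by
    have : a ≤ 2 ^ (r + 1) * l ^ (r + 1) * a := by
      nlinarith
    nlinarith
  have hpos : (0 : ℝ) < 2 ^ (r + 1) + C * K := by positivity
  rw [div_le_iff₀ (by positivity), one_div, inv_mul_le_iff₀ hpos]
  calc (n : ℝ) ^ 2 ≤ (2 ^ (r + 1) + C * K) * l ^ (r + 1) * a := h8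
    _ = (2 ^ (r + 1) + C * K) * (a * l ^ (r + 1)) := by ring

end TP.TW
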